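import Mathlib
import Pool.Agent.Q203.Carleman

open MeasureTheory Set
open scoped ENNReal InnerProductSpace ComplexConjugate
open Pool.Agent.Q203.Carleman

namespace Pool.Agent.Results.MP_0ee9ff_an.NormalCarleman

theorem dense_bound {E : Type*} [NormedAddCommGroup E] [InnerProductSpace ℂ E]
    [TopologicalSpace.SeparableSpace E] (v : E) (C : ℝ) (hC : 0 ≤ C)
    (h : ∀ j, ‖(inner ℂ v (TopologicalSpace.denseSeq E j) : ℂ)‖ ≤
      C * ‖TopologicalSpace.denseSeq E j‖) : ‖v‖ ≤ C := by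
  have hcl : IsClosed {φ : E | ‖(inner ℂ v φ : ℂ)‖ ≤ C * ‖φ‖} :=
    isClosed_le (by fun_prop) (by fun_prop)
  have hd : Dense {φ : E | ‖(inner ℂ v φ : ℂ)‖ ≤ C * ‖φ‖} := by
    refine (TopologicalSpace.denseRange_denseSeq E).mono ?_
    rintro _ ⟨j, rfl⟩
    exact h j
  have hall := hcl.closure_eq ▸ hd.closure_eq
  have hv : v ∈ {φ : E | ‖(inner ℂ v φ : ℂ)‖ ≤ C * ‖φ‖} := by
    rw [hall]
    trivial
  rw [Set.mem_ofPred_eq, inner_self_eq_norm_sq_to_K] at hv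
  have h2 : ‖((‖v‖ : ℂ)) ^ 2‖ = ‖v‖ * ‖v‖ := by
    rw [norm_pow, Complex.norm_real, norm_norm, sq]
  have h3 : ‖v‖ * ‖v‖ ≤ C * ‖v‖ := by
    rw [← h2]
    exact hv
  by_cases hv0 : ‖v‖ = 0
  · rw [hv0]
    exact hC
  · have : 0 < ‖v‖ := lt_of_le_of_ne (norm_nonneg _) (Ne.symm hv0)
    exact le_of_mul_le_mul_right h3 this

variable {X : Type*} [MeasurableSpace X] [MeasurableSpace.CountablyGenerated X] {μ : Measure X}
  [SigmaFinite μ]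

theorem main_sm (N : Lp ℂ 2 μ →L[ℂ] Lp ℂ 2 μ) (ν : X → X → ℂ)
    (hν : StronglyMeasurable (Function.uncurry ν))
    (hN : ∀ f : Lp ℂ 2 μ, ∀ᵐ x ∂μ, N f x = ∫ y, ν x y * f y ∂μ)
    (hC : ∀ᵐ x ∂μ, ∫⁻ y, ‖ν x y‖ₑ ^ 2 ∂μ < ∞) (hnormal : IsStarNormal N) :
    ∀ᵐ y ∂μ, ∫⁻ x, ‖ν x y‖ₑ ^ 2 ∂μ ≤ ∫⁻ z, ‖ν y z‖ₑ ^ 2 ∂μ := by
  have : TopologicalSpace.SeparableSpace (Lp ℂ 2 μ) := by
    have : Fact ((2 : ℝ≥0∞) ≠ ∞) := ⟨by norm_num⟩
    infer_instance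
  set K : X → ℝ≥0∞ := fun x => ∫⁻ y, ‖ν x y‖ₑ ^ 2 ∂μ with hKdef
  have hKm : Measurable K := by
    have : Measurable (Function.uncurry fun x y => ‖ν x y‖ₑ ^ 2) :=
      hν.enorm.pow_const 2
    exact this.lintegral_prod_right'
  set A : ℕ → Set X := fun m => {x | K x ≤ m} ∩ spanningSets μ m with hAdef
  have hAm : ∀ m, MeasurableSet (A m) := fun m =>
    (measurableSet_le hKm measurable_const).inter (measurableSet_spanningSets μ m)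
  have hAμ : ∀ m, μ (A m) < ∞ := fun m =>
    (measure_mono inter_subset_right).trans_lt (measure_spanningSets_lt_top μ m)
  have hAK : ∀ m, ∀ x ∈ A m, ∫⁻ y, ‖ν x y‖ₑ ^ 2 ∂μ ≤ m := fun m x hx => hx.1
  have hAmono : Monotone A := by
    intro m n hmn x hx
    refine ⟨?_, monotone_spanningSets μ hmn hx.2⟩
    have h1 : K x ≤ m := hx.1
    exact le_trans h1 (by exact_mod_cast hmn)
  -- the truncated columns are square integrable
  have hfin : ∀ m, ∀ᵐ y ∂μ, ∫⁻ x in A m, ‖ν x y‖ₑ ^ 2 ∂μ < ∞ := by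
    intro m
    have hmeas : Measurable (Function.uncurry fun y x => ‖ν x y‖ₑ ^ 2) :=
      (hν.enorm.pow_const 2).comp measurable_swap
    refine ae_lt_top (hmeas.lintegral_prod_right' (ν := μ.restrict (A m))) ?_
    rw [lintegral_lintegral_swap hmeas.aemeasurable]
    refine ne_of_lt ?_
    calc ∫⁻ x in A m, ∫⁻ y, ‖ν x y‖ₑ ^ 2 ∂μ ∂μ ≤ ∫⁻ x in A m, (m : ℝ≥0∞) ∂μ :=
          setLIntegral_mono measurable_const fun x hx => hAK m x hx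
      _ = m * μ (A m) := by simp
      _ < ∞ := ENNReal.mul_lt_top (by simp) (hAμ m)
  have hψm : ∀ m (φ : Lp ℂ 2 μ), MemLp ((A m).indicator φ) 2 μ := fun m φ =>
    (Lp.memLp φ).indicator (hAm m)
  have hbd : ∀ m j, ∀ᵐ y ∂μ,
      ‖∫ x in A m, (TopologicalSpace.denseSeq (Lp ℂ 2 μ) j) x * conj (ν x y) ∂μ‖ₑ ≤
        eLpNorm (ν y) 2 μ * ‖TopologicalSpace.denseSeq (Lp ℂ 2 μ) j‖ₑ := by
    intro m j
    set φ := TopologicalSpace.denseSeq (Lp ℂ 2 μ) j with hφ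
    filter_upwards [formula N ν hν hN (A m) (hAm m) (hAμ m) m (by simp) (hAK m) φ
      ((hψm m φ).toLp _) (hψm m φ).coeFn_toLp,
      ae_bound N ν hν hN hnormal ((hψm m φ).toLp _)] with y h1 h2
    rw [← h1]
    refine h2.trans ?_
    gcongr
    rw [Lp.enorm_toLp, Lp.enorm_def]
    exact eLpNorm_indicator_le _
  have hbd' : ∀ᵐ y ∂μ, ∀ m j, 
      ‖∫ x in A m, (TopologicalSpace.denseSeq (Lp ℂ 2 μ) j) x * conj (ν x y) ∂μ‖ₑ ≤
        eLpNorm (ν y) 2 μ * ‖TopologicalSpace.denseSeq (Lp ℂ 2 μ) j‖ₑ := by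
    rw [ae_all_iff]
    intro m
    rw [ae_all_iff]
    exact hbd m
  have hfin' : ∀ᵐ y ∂μ, ∀ m, ∫⁻ x in A m, ‖ν x y‖ₑ ^ 2 ∂μ < ∞ := ae_all_iff.2 hfin
  have hcov : ∀ᵐ x ∂μ, x ∈ ⋃ m, A m := by
    filter_upwards [hC] with x hx
    have hx' : K x < ∞ := hx
    obtain ⟨n, hn⟩ := ENNReal.exists_nat_gt hx'.ne
    have h2 : x ∈ ⋃ m, spanningSets μ m := by
      rw [iUnion_spanningSets]
      trivial
    obtain ⟨k, hk⟩ := mem_iUnion.1 h2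
    refine mem_iUnion.2 ⟨max n k, ?_, monotone_spanningSets μ (le_max_right n k) hk⟩
    have h3 : K x ≤ n := hn.le
    refine h3.trans ?_
    exact_mod_cast le_max_left n k
  filter_upwards [hbd', hfin', hC] with y hy1 hy2 hy3
  have hfinC : eLpNorm (ν y) 2 μ ≠ ∞ := by
    intro h
    have := eLpNorm_two_sq (μ := μ) (ν y)
    rw [h] at this
    rw [← this] at hy3
    simp at hy3
  have hkey : ∀ m, ∫⁻ x in A m, ‖ν x y‖ₑ ^ 2 ∂μ ≤ ∫⁻ z, ‖ν y z‖ₑ ^ 2 ∂μ := by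
    intro m
    have hvsq : eLpNorm ((A m).indicator fun x => ν x y) 2 μ ^ 2 =
        ∫⁻ x in A m, ‖ν x y‖ₑ ^ 2 ∂μ := by
      rw [eLpNorm_two_sq, ← lintegral_indicator (hAm m)]
      congr 1
      funext x
      by_cases hx : x ∈ A m
      · simp [hx]
      · simp [hx]
    have hv : MemLp ((A m).indicator fun x => ν x y) 2 μ := by
      refine ⟨?_, ?_⟩
      · exact ((hν.comp_measurable measurable_prodMk_right).indicator (hAm m)).aestronglyMeasurable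
      · by_contra h4
        rw [not_lt_top_iff] at h4
        have h5 := hy2 m
        rw [← hvsq, h4] at h5
        simp at h5
    have hnorm : ‖hv.toLp‖ ≤ (eLpNorm (ν y) 2 μ).toReal := by
      refine dense_bound _ _ ENNReal.toReal_nonneg fun j => ?_
      set φ := TopologicalSpace.denseSeq (Lp ℂ 2 μ) j with hφ
      have h6 := hy1 m j
      rw [← hφ] at h6
      have h7 : (inner ℂ hv.toLp φ : ℂ) = ∫ x in A m, φ x * conj (ν x y) ∂μ := by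
        rw [L2.inner_def, ← integral_indicator (hAm m)]
        refine integral_congr_ae ?_
        filter_upwards [hv.coeFn_toLp] with x hx
        rw [hx]
        by_cases hxA : x ∈ A m
        · simp only [indicator_of_mem hxA, RCLike.inner_apply]
        · simp [indicator_of_notMem hxA]
      rw [h7]
      have h8 := (ENNReal.toReal_le_toReal (by simp) (ENNReal.mul_ne_top hfinC (by simp))).2 h6
      rw [ENNReal.toReal_mul, toReal_enorm, toReal_enorm] at h8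
      exact h8
    have h9 : eLpNorm ((A m).indicator fun x => ν x y) 2 μ ≤ eLpNorm (ν y) 2 μ := by
      rw [← Lp.enorm_toLp hv, ← ofReal_norm, ← ENNReal.ofReal_toReal hfinC]
      exact ENNReal.ofReal_le_ofReal hnorm
    rw [← hvsq, ← eLpNorm_two_sq]
    gcongr
  calc ∫⁻ x, ‖ν x y‖ₑ ^ 2 ∂μ = ∫⁻ x in ⋃ m, A m, ‖ν x y‖ₑ ^ 2 ∂μ := by
        rw [Measure.restrict_eq_self_of_ae_mem hcov]
    _ = ⨆ m, ∫⁻ x in A m, ‖ν x y‖ₑ ^ 2 ∂μ :=
        setLIntegral_iUnion_of_directed _ (directed_of_isDirected_le hAmono)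
    _ ≤ _ := iSup_le hkey

/-- Let `N` be a normal Carleman operator on `L²(X, μ)` (`μ` sigma-finite on a countably generated
measurable space, for instance Lebesgue measure on an interval) with kernel `ν`. Then for almost
every `y`, the integral of `|ν(x, y)|²` over `x` is at most the integral of `|ν(y, z)|²` over `z`;
in particular it is finite. -/
theorem _root_.Pool.Agent.Results.MP_0ee9ff_an.NormalCarleman.result {X : Type}
    [MeasurableSpace X] [MeasurableSpace.CountablyGenerated X] (μ : Measure X) [SigmaFinite μ]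
    (N : Lp ℂ 2 μ →L[ℂ] Lp ℂ 2 μ) (ν : X → X → ℂ)
    (hν : AEStronglyMeasurable (fun p : X × X => ν p.1 p.2) (μ.prod μ))
    (hC : ∀ᵐ x ∂μ, ∫⁻ y, ‖ν x y‖ₑ ^ 2 ∂μ < ∞)
    (hN : ∀ f : Lp ℂ 2 μ, ∀ᵐ x ∂μ, N f x = ∫ y, ν x y * f y ∂μ)
    (hnormal : IsStarNormal N) :
    ∀ᵐ y ∂μ, ∫⁻ x, ‖ν x y‖ₑ ^ 2 ∂μ ≤ ∫⁻ z, ‖ν y z‖ₑ ^ 2 ∂μ ∧
      ∫⁻ x, ‖ν x y‖ₑ ^ 2 ∂μ < ∞ := by
  set ν' : X → X → ℂ := fun x y => hν.mk _ (x, y) with hν'
  have hm : StronglyMeasurable (Function.uncurry ν') := hν.stronglyMeasurable_mk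
  have hae : ∀ᵐ p ∂(μ.prod μ), ν p.1 p.2 = ν' p.1 p.2 := hν.ae_eq_mk
  have h1 : ∀ᵐ x ∂μ, ∀ᵐ y ∂μ, ν x y = ν' x y := Measure.ae_ae_of_ae_prod hae
  have hae2 : ∀ᵐ p ∂(μ.prod μ), ν p.2 p.1 = ν' p.2 p.1 :=
    (Measure.measurePreserving_swap (μ := μ) (ν := μ)).quasiMeasurePreserving.ae hae
  have h2 : ∀ᵐ y ∂μ, ∀ᵐ x ∂μ, ν x y = ν' x y := Measure.ae_ae_of_ae_prod hae2
  have hC' : ∀ᵐ x ∂μ, ∫⁻ y, ‖ν' x y‖ₑ ^ 2 ∂μ < ∞ := by
    filter_upwards [hC, h1] with x hx hx1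
    have e : ∫⁻ y, ‖ν' x y‖ₑ ^ 2 ∂μ = ∫⁻ y, ‖ν x y‖ₑ ^ 2 ∂μ :=
      lintegral_congr_ae (hx1.mono fun y hy => by simp only [hy])
    rw [e]
    exact hx
  have hN' : ∀ f : Lp ℂ 2 μ, ∀ᵐ x ∂μ, N f x = ∫ y, ν' x y * f y ∂μ := by
    intro f
    filter_upwards [hN f, h1] with x hx hx1
    rw [hx]
    exact integral_congr_ae (hx1.mono fun y hy => by simp only [hy])
  filter_upwards [main_sm N ν' hm hN' hC' hnormal, hC, h1, h2] with y hy hyC hy1 hy2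
  have e1 : ∫⁻ x, ‖ν x y‖ₑ ^ 2 ∂μ = ∫⁻ x, ‖ν' x y‖ₑ ^ 2 ∂μ :=
    lintegral_congr_ae (hy2.mono fun y hy => by simp only [hy])
  have e2 : ∫⁻ z, ‖ν y z‖ₑ ^ 2 ∂μ = ∫⁻ z, ‖ν' y z‖ₑ ^ 2 ∂μ :=
    lintegral_congr_ae (hy1.mono fun y hy => by simp only [hy])
  have e3 : ∫⁻ x, ‖ν x y‖ₑ ^ 2 ∂μ ≤ ∫⁻ z, ‖ν y z‖ₑ ^ 2 ∂μ := by
    rw [e1, e2]
    exact hy
  exact ⟨e3, e3.trans_lt hyC⟩

end Pool.Agent.Results.MP_0ee9ff_an.NormalCarleman
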